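import Pool.Agent.L7h23.BP.Hm
import Pool.Agent.L7h18.BP.Stm
import Pool.Agent.Q298.KS.Sb1
import Pool.Agent.Q298.KS.Sbv
import Pool.Agent.Q298.KS.Tri
import Pool.Agent.Q14.KS.Smo

/-!
Project BP (helper18), part HMP.
-/

set_option autoImplicit false

namespace Pool.Agent.L7h23.BP

open Finset ComplexConjugate
open Pool.Agent.H376R2.MR (ch DP FK w)
open Pool.Agent.Q240.KS (cf sp PF S_SB1 S_SBV)
open Pool.Agent.L7h88.BW (PX prm S_SMA S_SMC)
open Pool.Agent.L7h18.BP (S_HMP)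
open Pool.Agent.Q298.KS (hi lo w_hi w_nonneg sp_eq norm_ch one_le_lo sum_sp_eq cf_lo cf_abs cb_ne sum_inv_window)

/-! ### the kernel -/

/-- the kernel -/
noncomputable def Kn (d n : ℕ) : ℝ := ∑ j ∈ range 3, cf 0 1 (d - 1 + j) n

lemma cf_one (z d n : ℕ) : cf z 1 d n = w (20 * Real.log n - d) / n := by
  unfold cf
  rw [if_neg (by decide), if_pos rfl, one_mul]

lemma Kn_nonneg (d n : ℕ) : 0 ≤ Kn d n := by
  refine sum_nonneg fun j _ => ?_
  rw [cf_one]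
  exact div_nonneg (w_nonneg _) (Nat.cast_nonneg _)

lemma w_three {x : ℝ} (h : |x| < 1) : w (x + 1) + w x + w (x - 1) = 1 := by
  rw [abs_lt] at h
  unfold w
  rcases le_total 0 x with h0 | h0
  · rw [abs_of_nonneg (by linarith : (0 : ℝ) ≤ x + 1), abs_of_nonneg h0,
      abs_of_nonpos (by linarith : x - 1 ≤ 0), max_eq_left (by linarith),
      max_eq_right (by linarith), max_eq_right (by linarith)]
    ring
  · rw [abs_of_nonneg (by linarith : (0 : ℝ) ≤ x + 1), abs_of_nonpos h0,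
      abs_of_nonpos (by linarith : x - 1 ≤ 0), max_eq_right (by linarith),
      max_eq_right (by linarith), max_eq_left (by linarith)]
    ring

lemma Kn_eq {z d n : ℕ} {t : Fin 3} (hd : 1 ≤ d) (hn : 1 ≤ n) (h : cf z t d n ≠ 0) : (n : ℝ) * Kn d n = 1 := by
  have hn0 : (n : ℝ) ≠ 0 := by positivity
  have hx : |20 * Real.log n - d| < 1 := by
    by_contra h1
    apply h
    unfold cf
    rw [Pool.Agent.Q298.KS.w_eq_zero (not_lt.1 h1), mul_zero, zero_div]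
  unfold Kn
  rw [sum_range_succ, sum_range_succ, sum_range_succ, sum_range_zero, cf_one, cf_one, cf_one]
  have e0 : (20 * Real.log n - ((d - 1 + 0 : ℕ) : ℝ)) = (20 * Real.log n - d) + 1 := by
    push_cast [Nat.cast_sub hd]
    ring
  have e1 : (20 * Real.log n - ((d - 1 + 1 : ℕ) : ℝ)) = 20 * Real.log n - d := by
    push_cast [Nat.cast_sub hd]
    ring
  have e2 : (20 * Real.log n - ((d - 1 + 2 : ℕ) : ℝ)) = (20 * Real.log n - d) - 1 := by
    push_cast [Nat.cast_sub hd]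
    ring
  have e3 := w_three hx
  rw [e0, e1, e2, zero_add, ← add_div, ← add_div, e3]
  field_simp

lemma hi_mono {d d' : ℕ} (h : d' ≤ d) : hi d' ≤ hi d := by
  unfold hi
  have h1 : (d' : ℝ) ≤ d := by exact_mod_cast h
  have h2 : ⌊Real.exp (((d' : ℝ) + 1) / 20)⌋₊ ≤ ⌊Real.exp (((d : ℝ) + 1) / 20)⌋₊ :=
    Nat.floor_le_floor (Real.exp_le_exp.2 (by linarith))
  omega

lemma sum_big {M : Type*} [AddCommMonoid M] {d d' : ℕ} (h : d' ≤ d) (f : ℕ → M)
    (hf : ∀ n : ℕ, w (20 * Real.log n - d') = 0 → f n = 0) : ∑ n ∈ sp d, f n = ∑ n ∈ sp d', f n := by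
  rw [sp_eq, sp_eq]
  symm
  have hm := hi_mono h
  apply sum_subset
  · intro n hn
    rw [mem_Ico] at hn ⊢
    exact ⟨hn.1, hn.2.trans_le hm⟩
  · intro n hn hn'
    rw [mem_Ico] at hn hn'
    apply hf
    apply w_hi
    omega

lemma kern_eq (d : ℕ) (ψ : ℕ → ℂ) (τ : ℤ) (hd : 1 ≤ d) :
    ∑ n ∈ sp (d + 1), (Kn d n : ℂ) * (ψ n * ch τ (Real.log n)) =
      ∑ j ∈ range 3, ∑ n ∈ sp (d - 1 + j), ((cf 0 1 (d - 1 + j) n : ℝ) : ℂ) * ψ n * ch τ (Real.log n) := by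
  have e1 : ∀ n ∈ sp (d + 1), (Kn d n : ℂ) * (ψ n * ch τ (Real.log n)) =
      ∑ j ∈ range 3, ((cf 0 1 (d - 1 + j) n : ℝ) : ℂ) * ψ n * ch τ (Real.log n) := by
    intro n _
    unfold Kn
    push_cast
    rw [sum_mul]
    refine sum_congr rfl fun j _ => ?_
    ring
  rw [sum_congr rfl e1, sum_comm]
  refine sum_congr rfl fun j hj => ?_
  rw [mem_range] at hj
  refine sum_big (by omega) _ fun n hn => ?_
  rw [cf_one, hn]
  simp

lemma ch_conj (k l : ℤ) (x : ℝ) : ch k x * conj (ch l x) = ch (k - l) x := by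
  unfold ch
  rw [← Complex.exp_conj, ← Complex.exp_add]
  congr 1
  rw [map_mul, map_neg, Complex.conj_ofReal, Complex.conj_I]
  push_cast
  ring

/-! ### trivial bounds -/

lemma cf1_sum (d : ℕ) : ∑ n ∈ sp d, |cf 0 1 d n| ≤ 2 := by
  rw [sum_sp_eq d _ (fun n h1 h => by rw [cf_lo h1 h, abs_zero])]
  calc ∑ n ∈ Ico (lo d) (hi d), |cf 0 1 d n|
      ≤ ∑ n ∈ Ico (lo d) (hi d), (1 : ℝ) / n := by
        refine sum_le_sum fun n hn => ?_
        rw [mem_Ico] at hn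
        refine (cf_abs 0 1 d n ((one_le_lo d).trans hn.1) hn.2).trans (le_of_eq ?_)
        rw [cb_ne (by decide)]
    _ ≤ 1 + 1 / 10 := sum_inv_window d
    _ ≤ 2 := by norm_num

lemma triv (d : ℕ) (ψ : ℕ → ℂ) (hψ : ∀ n, ‖ψ n‖ ≤ 1) (τ : ℤ) :
    ‖∑ n ∈ sp d, ((cf 0 1 d n : ℝ) : ℂ) * ψ n * ch τ (Real.log n)‖ ≤ 2 := by
  refine (norm_sum_le _ _).trans (le_trans (sum_le_sum fun n _ => ?_) (cf1_sum d))
  rw [norm_mul, norm_mul, norm_ch, mul_one, Complex.norm_real, Real.norm_eq_abs]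
  calc |cf 0 1 d n| * ‖ψ n‖ ≤ |cf 0 1 d n| * 1 := mul_le_mul_of_nonneg_left (hψ n) (abs_nonneg _)
    _ = |cf 0 1 d n| := mul_one _

lemma PX_triv {q : ℕ} (ψ : DirichletCharacter ℂ q) (d : ℕ) (τ : ℤ) : ‖PX ψ 0 1 d τ‖ ≤ 2 := by
  unfold PX
  exact triv d (fun n => ψ (n : ZMod q)) (fun n => DirichletCharacter.norm_le_one ψ _) τ

lemma PF_eq1 (d : ℕ) (τ : ℤ) : PF 0 1 d τ = ∑ n ∈ sp d, ((cf 0 1 d n : ℝ) : ℂ) * 1 * ch τ (Real.log n) := by
  unfold PF DP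
  refine sum_congr rfl fun n _ => ?_
  rw [mul_one]

lemma PF_triv (d : ℕ) (τ : ℤ) : ‖PF 0 1 d τ‖ ≤ 2 := by
  rw [PF_eq1]
  exact triv d (fun _ => 1) (fun n => by simp) τ

/-! ### small real estimates -/

lemma exp_one_le : Real.exp 1 ≤ 3 := by
  have := Real.exp_one_lt_d9
  linarith

lemma third_le_exp {x : ℝ} (h : x ≤ 1) : 1 / 3 ≤ Real.exp (-x) := by
  rw [Real.exp_neg, ← one_div]
  refine one_div_le_one_div_of_le (Real.exp_pos _) ?_
  exact (Real.exp_le_exp.2 h).trans exp_one_le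

lemma exp_le_two {x : ℝ} (h : x ≤ 1 / 2) : Real.exp x ≤ 2 := by
  have h1 : Real.exp x ≤ Real.exp (1 / 2) := Real.exp_le_exp.2 h
  have h2 : Real.exp (1 / 2) ^ 2 ≤ 2 ^ 2 := by
    rw [← Real.exp_nat_mul]
    have : ((2 : ℕ) : ℝ) * (1 / 2) = 1 := by norm_num
    rw [this]
    linarith [exp_one_le]
  have h3 : Real.exp (1 / 2) ≤ 2 := by
    exact (abs_le_of_sq_le_sq' h2 (by norm_num)).2
  linarith

/-- the shift by one unit costs at most a factor `2` -/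
lemma exp_shift {η η' x d : ℝ} (h0 : 0 < η) (h1 : η ≤ η') (h2 : η' ≤ 2) (hx : d - 1 ≤ x) (hd : 0 ≤ d) :
    Real.exp (-(η' * x / 20)) ≤ 2 * Real.exp (-(η * d / 20)) := by
  have e1 : Real.exp (-(η' * x / 20)) ≤ Real.exp (1 / 10 + -(η * d / 20)) := by
    refine Real.exp_le_exp.2 ?_
    have h3 : η' * (d - 1) ≤ η' * x := mul_le_mul_of_nonneg_left hx (by linarith)
    have h4 : η * d ≤ η' * d := mul_le_mul_of_nonneg_right h1 hd
    nlinarith
  refine e1.trans ?_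
  rw [Real.exp_add]
  exact mul_le_mul_of_nonneg_right (exp_le_two (by norm_num)) (Real.exp_pos _).le

/-- the heights are polynomial -/
lemma tau_le {d d' : ℕ} (h5 : 5 ≤ d) (hd : d ≤ d' + 1) {τ : ℝ} (hτ : τ ≤ 2 * Real.exp (3 * d / 20)) :
    τ ≤ Real.exp (((8 : ℕ) : ℝ) * d' / 20) := by
  refine hτ.trans ?_
  have e1 : (2 : ℝ) ≤ Real.exp (0.7) := by
    have h2 : (2 : ℝ) = Real.exp (Real.log 2) := (Real.exp_log (by norm_num)).symm
    rw [h2]
    refine Real.exp_le_exp.2 ?_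
    have := Real.log_two_lt_d9
    linarith
  have h5' : (5 : ℝ) ≤ d := by exact_mod_cast h5
  have hd' : (d : ℝ) ≤ d' + 1 := by exact_mod_cast hd
  calc 2 * Real.exp (3 * d / 20) ≤ Real.exp 0.7 * Real.exp (3 * d / 20) :=
        mul_le_mul_of_nonneg_right e1 (Real.exp_pos _).le
    _ = Real.exp (0.7 + 3 * d / 20) := (Real.exp_add _ _).symm
    _ ≤ Real.exp (((8 : ℕ) : ℝ) * d' / 20) := by
        refine Real.exp_le_exp.2 ?_
        push_cast
        linarith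

/-! ### different characters -/

lemma diff_bound (hA : S_SMA) (hC : S_SMC) : ∃ C η : ℝ, 1 ≤ C ∧ 0 < η ∧ η ≤ 1 / 4 ∧
    ∀ (q : ℕ) (_ : NeZero q) (ψ : DirichletCharacter ℂ q) (d d' : ℕ) (τ : ℤ), ψ ≠ 1 → 1 ≤ d → d ≤ d' + 1 →
      d' ≤ d + 1 → |(τ : ℝ)| ≤ 2 * Real.exp (3 * d / 20) →
      ‖PX ψ 0 1 d' τ‖ ≤ C * q * (1 + (d : ℝ)) ^ 2 * Real.exp (-(η * d / 20)) := by
  obtain ⟨CA, hCA, hA⟩ := hA
  obtain ⟨CC, ηC, hCC, hηC, hηC2, hC⟩ := hC 8
  refine ⟨12 * (CA + CC), min ηC (1 / 4), by linarith, lt_min hηC (by norm_num), min_le_right _ _, ?_⟩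
  intro q hq ψ d d' τ hψ hd hd1 hd2 hτ
  set η := min ηC (1 / 4) with hη
  have hη0 : 0 < η := lt_min hηC (by norm_num)
  have hη1 : η ≤ 1 / 4 := min_le_right _ _
  have hη2 : η ≤ ηC := min_le_left _ _
  have hq1 : (1 : ℝ) ≤ q := by exact_mod_cast Nat.one_le_iff_ne_zero.2 hq.out
  have hdR : (1 : ℝ) ≤ d := by exact_mod_cast hd
  have hd1R : (d : ℝ) ≤ d' + 1 := by exact_mod_cast hd1
  have hd2R : (d' : ℝ) ≤ d + 1 := by exact_mod_cast hd2
  have hd'0 : (0 : ℝ) ≤ d' := Nat.cast_nonneg _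
  have hE := Real.exp_pos (-(η * d / 20))
  have hC0 : 12 ≤ 12 * (CA + CC) := by linarith
  by_cases h5 : d ≤ 4
  · refine (PX_triv ψ d' τ).trans ?_
    have h5R : (d : ℝ) ≤ 4 := by exact_mod_cast h5
    have e1 : 1 / 3 ≤ Real.exp (-(η * d / 20)) := third_le_exp (by nlinarith)
    have e2 : (1 : ℝ) ≤ (1 + (d : ℝ)) ^ 2 := one_le_pow₀ (by linarith)
    calc (2 : ℝ) ≤ 12 * 1 * 1 * (1 / 3) := by norm_num
      _ ≤ 12 * (CA + CC) * q * (1 + (d : ℝ)) ^ 2 * Real.exp (-(η * d / 20)) := by gcongr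
  · have h5' : 5 ≤ d := by omega
    by_cases hτ1 : |(τ : ℝ)| ≤ Real.exp (d / 40)
    · refine (hA q hq ψ 0 1 d' τ hψ (by decide)).trans ?_
      have e1 : 1 + |(τ : ℝ)| ≤ 2 * Real.exp (d / 40) := by
        have : 1 ≤ Real.exp ((d : ℝ) / 40) := Real.one_le_exp (by positivity)
        linarith
      have e2 : Real.exp (d / 40) * Real.exp (-((d' : ℝ) / 20)) ≤ 2 * Real.exp (-(η * d / 20)) := by
        rw [← Real.exp_add]
        have e3 : Real.exp ((d : ℝ) / 40 + -((d' : ℝ) / 20)) ≤ Real.exp (1 / 10 + -(η * d / 20)) := by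
          refine Real.exp_le_exp.2 ?_
          nlinarith
        refine e3.trans ?_
        rw [Real.exp_add]
        exact mul_le_mul_of_nonneg_right (exp_le_two (by norm_num)) hE.le
      have e4 : (1 + (d' : ℝ)) ≤ 2 * (1 + d) := by linarith
      have e5 : (1 + (d : ℝ)) ≤ (1 + (d : ℝ)) ^ 2 := by nlinarith
      calc CA * q * (1 + |(τ : ℝ)|) * (1 + d') * Real.exp (-((d' : ℝ) / 20))
          ≤ CA * q * (2 * Real.exp (d / 40)) * (2 * (1 + d)) * Real.exp (-((d' : ℝ) / 20)) := by gcongr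
        _ = 4 * (CA * q * (1 + d)) * (Real.exp (d / 40) * Real.exp (-((d' : ℝ) / 20))) := by ring
        _ ≤ 4 * (CA * q * (1 + (d : ℝ)) ^ 2) * (2 * Real.exp (-(η * d / 20))) := by gcongr
        _ = (8 * CA) * q * (1 + (d : ℝ)) ^ 2 * Real.exp (-(η * d / 20)) := by ring
        _ ≤ 12 * (CA + CC) * q * (1 + (d : ℝ)) ^ 2 * Real.exp (-(η * d / 20)) := by
            have e6 : 8 * CA ≤ 12 * (CA + CC) := by linarith
            gcongr
    · push Not at hτ1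
      have hτ0 : τ ≠ 0 := by
        rintro rfl
        rw [Int.cast_zero, abs_zero] at hτ1
        exact absurd hτ1 (not_lt.2 (Real.exp_pos _).le)
      refine (hC q hq ψ 0 1 d' τ (by decide) hτ0 (tau_le h5' hd1 hτ)).trans ?_
      have e1 : |(τ : ℝ)| ^ (-(1 / 2) : ℝ) ≤ Real.exp (-(η * d / 20)) := by
        have e2 : |(τ : ℝ)| ^ (-(1 / 2) : ℝ) ≤ Real.exp (d / 40) ^ (-(1 / 2) : ℝ) :=
          Real.rpow_le_rpow_of_nonpos (Real.exp_pos _) hτ1.le (by norm_num)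
        refine e2.trans ?_
        rw [← Real.exp_mul]
        refine Real.exp_le_exp.2 ?_
        nlinarith
      have e3 : Real.exp (-(ηC * d' / 20)) ≤ 2 * Real.exp (-(η * d / 20)) :=
        exp_shift hη0 hη2 (by linarith) (by linarith) (by linarith)
      have e4 : (1 + (d' : ℝ)) ≤ 2 * (1 + d) := by linarith
      calc CC * q * (1 + (d' : ℝ)) ^ 2 * (|(τ : ℝ)| ^ (-(1 / 2) : ℝ) + Real.exp (-(ηC * d' / 20)))
          ≤ CC * q * (2 * (1 + (d : ℝ))) ^ 2 * (Real.exp (-(η * d / 20)) + 2 * Real.exp (-(η * d / 20))) := by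
            gcongr
        _ = (12 * CC) * q * (1 + (d : ℝ)) ^ 2 * Real.exp (-(η * d / 20)) := by ring
        _ ≤ 12 * (CA + CC) * q * (1 + (d : ℝ)) ^ 2 * Real.exp (-(η * d / 20)) := by
            gcongr
            linarith

/-! ### equal characters -/

lemma same_bound : ∃ C η : ℝ, 1 ≤ C ∧ 0 < η ∧ η ≤ 1 / 4 ∧
    ∀ (d d' : ℕ) (τ : ℤ), τ ≠ 0 → 1 ≤ d → d ≤ d' + 1 → d' ≤ d + 1 → |(τ : ℝ)| ≤ 2 * Real.exp (3 * d / 20) →
      ‖PF 0 1 d' τ‖ ≤ C * (1 + (d : ℝ)) * (1 / (τ : ℝ) ^ 2 + Real.exp (-(η * d / 20))) := by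
  obtain ⟨CA, hCA, hA⟩ := Pool.Agent.Q298.KS.sb1 Pool.Agent.Q14.KS.smo
  obtain ⟨CC, ηC, hCC, hηC, hηC2, hC⟩ := Pool.Agent.Q298.KS.sbv 8
  refine ⟨12 * (CA + CC), min ηC (1 / 4), by linarith, lt_min hηC (by norm_num), min_le_right _ _, ?_⟩
  intro d d' τ hτ0 hd hd1 hd2 hτ
  set η := min ηC (1 / 4) with hη
  have hη0 : 0 < η := lt_min hηC (by norm_num)
  have hη1 : η ≤ 1 / 4 := min_le_right _ _
  have hη2 : η ≤ ηC := min_le_left _ _
  have hdR : (1 : ℝ) ≤ d := by exact_mod_cast hd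
  have hd1R : (d : ℝ) ≤ d' + 1 := by exact_mod_cast hd1
  have hd2R : (d' : ℝ) ≤ d + 1 := by exact_mod_cast hd2
  have hd'0 : (0 : ℝ) ≤ d' := Nat.cast_nonneg _
  have hE := Real.exp_pos (-(η * d / 20))
  have hC0 : 12 ≤ 12 * (CA + CC) := by linarith
  have hT : 0 ≤ 1 / (τ : ℝ) ^ 2 := by positivity
  have e4 : (1 + (d' : ℝ)) ≤ 2 * (1 + d) := by linarith
  by_cases h5 : d ≤ 4
  · refine (PF_triv d' τ).trans ?_
    have h5R : (d : ℝ) ≤ 4 := by exact_mod_cast h5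
    have e1 : 1 / 3 ≤ Real.exp (-(η * d / 20)) := third_le_exp (by nlinarith)
    have e2 : 1 / 3 ≤ 1 / (τ : ℝ) ^ 2 + Real.exp (-(η * d / 20)) := by linarith
    have e3 : (1 : ℝ) ≤ 1 + (d : ℝ) := by linarith
    calc (2 : ℝ) ≤ 12 * 1 * (1 / 3) := by norm_num
      _ ≤ 12 * (CA + CC) * (1 + (d : ℝ)) * (1 / (τ : ℝ) ^ 2 + Real.exp (-(η * d / 20))) := by gcongr
  · have h5' : 5 ≤ d := by omega
    by_cases hτ1 : |(τ : ℝ)| ≤ Real.exp ((d' : ℝ) / 20 - 1)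
    · refine (hA 0 1 d' τ (by decide) hτ0 hτ1).trans ?_
      have e5 : Real.exp (-((d' : ℝ) / 10)) ≤ 2 * Real.exp (-(η * d / 20)) := by
        have e6 := exp_shift (η := η) (η' := 2) (x := d') (d := d) hη0 (by linarith) le_rfl (by linarith)
          (by linarith)
        have e7 : (2 : ℝ) * d' / 20 = d' / 10 := by ring
        rw [e7] at e6
        exact e6
      calc CA * (1 + (d' : ℝ)) * (1 / (τ : ℝ) ^ 2 + Real.exp (-((d' : ℝ) / 10)))
          ≤ CA * (2 * (1 + (d : ℝ))) * (2 * (1 / (τ : ℝ) ^ 2) + 2 * Real.exp (-(η * d / 20))) := by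
            gcongr
            linarith
        _ = (4 * CA) * (1 + (d : ℝ)) * (1 / (τ : ℝ) ^ 2 + Real.exp (-(η * d / 20))) := by ring
        _ ≤ 12 * (CA + CC) * (1 + (d : ℝ)) * (1 / (τ : ℝ) ^ 2 + Real.exp (-(η * d / 20))) := by
            have e6 : 4 * CA ≤ 12 * (CA + CC) := by linarith
            gcongr
    · push Not at hτ1
      refine (hC 0 1 d' τ (by decide) hτ0 (tau_le h5' hd1 hτ)).trans ?_
      have e5 : 1 / |(τ : ℝ)| ≤ 4 * Real.exp (-(η * d / 20)) := by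
        have e6 : 1 / |(τ : ℝ)| ≤ 1 / Real.exp ((d' : ℝ) / 20 - 1) :=
          one_div_le_one_div_of_le (Real.exp_pos _) hτ1.le
        refine e6.trans ?_
        rw [one_div, ← Real.exp_neg]
        have e7 : Real.exp (-((d' : ℝ) / 20 - 1)) ≤ Real.exp (1 / 20 + (1 + -(η * d / 20))) := by
          refine Real.exp_le_exp.2 ?_
          nlinarith
        refine e7.trans ?_
        rw [Real.exp_add, Real.exp_add]
        have e8 : Real.exp (1 / 20) ≤ 4 / 3 := by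
          have h9 := Real.abs_exp_sub_one_sub_id_le (x := 1 / 20) (by norm_num)
          rw [abs_le] at h9
          norm_num at h9 ⊢
          linarith [h9.2]
        calc Real.exp (1 / 20) * (Real.exp 1 * Real.exp (-(η * d / 20)))
            ≤ 4 / 3 * (3 * Real.exp (-(η * d / 20))) := by
              have := exp_one_le
              gcongr
          _ = 4 * Real.exp (-(η * d / 20)) := by ring
      have e3 : Real.exp (-(ηC * d' / 20)) ≤ 2 * Real.exp (-(η * d / 20)) :=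
        exp_shift hη0 hη2 (by linarith) (by linarith) (by linarith)
      calc CC * (1 + (d' : ℝ)) * (1 / |(τ : ℝ)| + Real.exp (-(ηC * d' / 20)))
          ≤ CC * (2 * (1 + (d : ℝ))) * (4 * Real.exp (-(η * d / 20)) + 2 * Real.exp (-(η * d / 20))) := by
            gcongr
        _ = (12 * CC) * (1 + (d : ℝ)) * (0 + Real.exp (-(η * d / 20))) := by ring
        _ ≤ 12 * (CA + CC) * (1 + (d : ℝ)) * (1 / (τ : ℝ) ^ 2 + Real.exp (-(η * d / 20))) := by
            gcongr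
            linarith

/-! ### a sum of inverse squares -/

lemma sum_sq_nat (M : ℕ) : ∑ m ∈ Icc 1 M, (1 : ℝ) / (m : ℝ) ^ 2 ≤ 2 := by
  have h : ∀ M : ℕ, 1 ≤ M → ∑ m ∈ Icc 1 M, (1 : ℝ) / (m : ℝ) ^ 2 ≤ 2 - 1 / M := by
    intro M hM
    induction M, hM using Nat.le_induction with
    | base => norm_num
    | succ n hn ih =>
      rw [sum_Icc_succ_top (by omega)]
      have hn0 : (0 : ℝ) < n := by exact_mod_cast hn
      have e1 : 1 / (((n + 1 : ℕ) : ℝ)) ^ 2 ≤ 1 / (n : ℝ) - 1 / ((n + 1 : ℕ) : ℝ) := by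
        push_cast
        rw [div_sub_div _ _ hn0.ne' (by positivity), div_le_div_iff₀ (by positivity) (by positivity)]
        nlinarith
      linarith
  rcases Nat.eq_zero_or_pos M with h0 | h0
  · subst h0
    norm_num
  · have := h M h0
    have h1 : (0 : ℝ) ≤ 1 / M := by positivity
    linarith

lemma sum_sq_int (T : Finset ℤ) : ∑ τ ∈ T, (if τ = 0 then 0 else (1 : ℝ) / (τ : ℝ) ^ 2) ≤ 4 := by
  classical
  set M := T.sup Int.natAbs with hM
  have h1 : T ⊆ ({0} : Finset ℤ) ∪ ((Icc 1 M).image (fun m : ℕ => (m : ℤ)) ∪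
      (Icc 1 M).image (fun m : ℕ => -(m : ℤ))) := by
    intro τ hτ
    have h2 : τ.natAbs ≤ M := by
      rw [hM]
      exact Finset.le_sup (f := Int.natAbs) hτ
    rw [mem_union, mem_union, mem_image, mem_image, mem_singleton]
    rcases lt_trichotomy τ 0 with h3 | h3 | h3
    · right; right
      exact ⟨τ.natAbs, mem_Icc.2 ⟨by omega, h2⟩, by omega⟩
    · left; exact h3
    · right; left
      exact ⟨τ.natAbs, mem_Icc.2 ⟨by omega, h2⟩, by omega⟩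
  have h0 : ∀ τ : ℤ, 0 ≤ (if τ = 0 then 0 else (1 : ℝ) / (τ : ℝ) ^ 2) := by
    intro τ
    split_ifs
    · exact le_rfl
    · positivity
  have h2 : ∀ (A B : Finset ℤ) (f : ℤ → ℝ), (∀ τ, 0 ≤ f τ) → ∑ τ ∈ A ∪ B, f τ ≤ ∑ τ ∈ A, f τ + ∑ τ ∈ B, f τ := by
    intro A B f hf
    have := sum_union_inter (s₁ := A) (s₂ := B) (f := f)
    have h3 : 0 ≤ ∑ τ ∈ A ∩ B, f τ := sum_nonneg fun τ _ => hf τ
    linarith
  have h3 : ∑ τ ∈ (Icc 1 M).image (fun m : ℕ => (m : ℤ)), (if τ = 0 then 0 else (1 : ℝ) / (τ : ℝ) ^ 2) ≤ 2 := by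
    rw [sum_image (fun a _ b _ hab => by simpa using hab)]
    refine le_trans (le_of_eq (sum_congr rfl fun m hm => ?_)) (sum_sq_nat M)
    rw [mem_Icc] at hm
    rw [if_neg (by omega)]
    push_cast
    rfl
  have h4 : ∑ τ ∈ (Icc 1 M).image (fun m : ℕ => -(m : ℤ)), (if τ = 0 then 0 else (1 : ℝ) / (τ : ℝ) ^ 2) ≤ 2 := by
    rw [sum_image (fun a _ b _ hab => by simpa using hab)]
    refine le_trans (le_of_eq (sum_congr rfl fun m hm => ?_)) (sum_sq_nat M)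
    rw [mem_Icc] at hm
    rw [if_neg (by omega)]
    push_cast
    rw [neg_sq]
  refine (sum_le_sum_of_subset_of_nonneg h1 fun τ _ _ => h0 τ).trans ?_
  refine (h2 _ _ _ h0).trans ?_
  have h5 := h2 ((Icc 1 M).image (fun m : ℕ => (m : ℤ))) ((Icc 1 M).image (fun m : ℕ => -(m : ℤ))) _ h0
  rw [sum_singleton, if_pos rfl]
  linarith

/-! ### the theorem -/

lemma mem_prmT {f : ℕ} {χ : DirichletCharacter ℂ f} : χ ∈ prm f (fun _ => True) ↔ χ.IsPrimitive := by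
  unfold prm
  simp

open Classical in
theorem s_HMP (hA : S_SMA) (hC : S_SMC) : S_HMP := by
  obtain ⟨C₁, η₁, hC₁, hη₁, hη₁', hdiff⟩ := diff_bound hA hC
  obtain ⟨C₂, η₂, hC₂, hη₂, hη₂', hsame⟩ := same_bound
  refine ⟨2 * (18 * C₂ + 3 * C₁), min η₁ η₂, by linarith, lt_min hη₁ hη₂, (min_le_left _ _).trans (by linarith), ?_⟩
  intro F z t d S hF hd hS
  set η := min η₁ η₂ with hη
  have hη0 : 0 < η := lt_min hη₁ hη₂
  have hdR : (1 : ℝ) ≤ d := by exact_mod_cast hd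
  have hFR : (1 : ℝ) ≤ F := by exact_mod_cast hF
  obtain ⟨A, hAd⟩ : ∃ A : Finset (Σ f : ℕ, DirichletCharacter ℂ f),
      A = (Icc 2 F).sigma (fun f => prm f (fun _ => True)) := ⟨_, rfl⟩
  obtain ⟨E, hE⟩ : ∃ E : ℝ, E = Real.exp (-(η * d / 20)) := ⟨_, rfl⟩
  have hE0 : 0 < E := by rw [hE]; exact Real.exp_pos _
  have hE1 : Real.exp (-(η₁ * d / 20)) ≤ E := by
    rw [hE]
    refine Real.exp_le_exp.2 ?_
    have : η * d ≤ η₁ * d := mul_le_mul_of_nonneg_right (min_le_left _ _) (by linarith)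
    linarith
  have hE2 : Real.exp (-(η₂ * d / 20)) ≤ E := by
    rw [hE]
    refine Real.exp_le_exp.2 ?_
    have : η * d ≤ η₂ * d := mul_le_mul_of_nonneg_right (min_le_right _ _) (by linarith)
    linarith
  obtain ⟨R, hR⟩ : ∃ R : ℝ, R = ∑ x ∈ A, ((S x.1 x.2).card : ℝ) := ⟨_, rfl⟩
  have hR0 : 0 ≤ R := by rw [hR]; exact sum_nonneg fun x _ => by positivity
  have hRR : ∑ f ∈ Icc 2 F, ∑ χ ∈ prm f (fun _ => True), ((S f χ).card : ℝ) = R := by
    rw [hR, hAd, Finset.sum_sigma]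
  have hSum : ∑ f ∈ Icc 2 F, ∑ χ ∈ prm f (fun _ => True), ∑ k ∈ S f χ, ‖PX χ z t d k‖ ^ 2 =
      ∑ x ∈ A, ∑ k ∈ S x.1 x.2, ‖PX x.2 z t d k‖ ^ 2 := by
    rw [hAd, Finset.sum_sigma]
  rw [hSum, hRR, ← hE]
  have hmemA : ∀ x ∈ A, 2 ≤ x.1 ∧ x.1 ≤ F ∧ x.2.IsPrimitive := by
    intro x hx
    rw [hAd, mem_sigma, mem_Icc] at hx
    exact ⟨hx.1.1, hx.1.2, (mem_prmT.1 hx.2)⟩
  have htau : ∀ x ∈ A, ∀ y ∈ A, ∀ k ∈ S x.1 x.2, ∀ l ∈ S y.1 y.2,
      |((k - l : ℤ) : ℝ)| ≤ 2 * Real.exp (3 * d / 20) := by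
    intro x _ y _ k hk l hl
    have h1 := hS x.1 x.2 k hk
    have h2 := hS y.1 y.2 l hl
    push_cast
    calc |(k : ℝ) - l| ≤ |(k : ℝ)| + |(l : ℝ)| := abs_sub _ _
      _ ≤ 2 * Real.exp (3 * d / 20) := by linarith
  obtain ⟨g, hg⟩ : ∃ g : ℤ → ℝ, ∀ τ, g τ = if τ = 0 then 6 else 3 * C₂ * (1 + (d : ℝ)) * (1 / (τ : ℝ) ^ 2 + E) :=
    ⟨_, fun _ => rfl⟩
  have key := hm_abs A (fun x => S x.1 x.2) (sp (d + 1)) (cf z t d) (Kn d)
    (fun x n => x.2 (n : ZMod x.1)) (fun k n => ch k (Real.log n)) g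
    (3 * C₁ * (F : ℝ) ^ 2 * (1 + (d : ℝ)) ^ 2 * E) (6 + 3 * C₂ * (1 + (d : ℝ)) * (4 + R * E))
    (2 * (1 + (d : ℝ)) ^ 2) (fun x k => PX x.2 z t d k) ?_ ?_ ?_ ?_ ?_ ?_ ?_ ?_ ?_ ?_ ?_
  · rw [← hR] at key
    refine key.trans ?_
    have hq : (1 : ℝ) ≤ 1 + (d : ℝ) := by linarith
    have hF2 : (1 : ℝ) ≤ (F : ℝ) ^ 2 := one_le_pow₀ hFR
    have e1 : 6 + 3 * C₂ * (1 + (d : ℝ)) * (4 + R * E) ≤
        18 * C₂ * (1 + (d : ℝ)) ^ 2 + 3 * C₂ * (1 + (d : ℝ)) ^ 2 * ((F : ℝ) ^ 2 * E * R) := by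
      have e2 : (1 + (d : ℝ)) ≤ (1 + (d : ℝ)) ^ 2 := by nlinarith
      have e3 : 6 ≤ 6 * C₂ * (1 + (d : ℝ)) ^ 2 := by
        have : 1 ≤ C₂ * (1 + (d : ℝ)) ^ 2 := one_le_mul_of_one_le_of_one_le hC₂ (one_le_pow₀ hq)
        linarith
      have e4 : 3 * C₂ * (1 + (d : ℝ)) * 4 ≤ 3 * C₂ * (1 + (d : ℝ)) ^ 2 * 4 := by gcongr
      have e5 : 3 * C₂ * (1 + (d : ℝ)) * (R * E) ≤ 3 * C₂ * (1 + (d : ℝ)) ^ 2 * ((F : ℝ) ^ 2 * E * R) := by
        have e6 : R * E ≤ (F : ℝ) ^ 2 * E * R := by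
          have : 1 * (R * E) ≤ (F : ℝ) ^ 2 * (R * E) := mul_le_mul_of_nonneg_right hF2 (by positivity)
          linarith
        have e7 : 0 ≤ R * E := by positivity
        gcongr
      linarith
    have e8 : 0 ≤ (F : ℝ) ^ 2 * E * R := by positivity
    calc 2 * (1 + (d : ℝ)) ^ 2 * (6 + 3 * C₂ * (1 + (d : ℝ)) * (4 + R * E) +
          3 * C₁ * (F : ℝ) ^ 2 * (1 + (d : ℝ)) ^ 2 * E * R)
        ≤ 2 * (1 + (d : ℝ)) ^ 2 * (18 * C₂ * (1 + (d : ℝ)) ^ 2 +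
            3 * C₂ * (1 + (d : ℝ)) ^ 2 * ((F : ℝ) ^ 2 * E * R) +
            3 * C₁ * (F : ℝ) ^ 2 * (1 + (d : ℝ)) ^ 2 * E * R) := by gcongr
      _ = 2 * (1 + (d : ℝ)) ^ 4 * (18 * C₂ + (3 * C₂ + 3 * C₁) * ((F : ℝ) ^ 2 * E * R)) := by ring
      _ ≤ 2 * (1 + (d : ℝ)) ^ 4 * ((18 * C₂ + 3 * C₁) + (18 * C₂ + 3 * C₁) * ((F : ℝ) ^ 2 * E * R)) := by
          gcongr <;> linarith
      _ = 2 * (18 * C₂ + 3 * C₁) * (1 + (d : ℝ)) ^ 4 * (1 + (F : ℝ) ^ 2 * E * R) := by ring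
  · -- the factors
    intro x k
    unfold PX
    rw [sum_big (d := d + 1) (d' := d) (by omega)]
    intro n hn
    unfold cf
    rw [hn]
    simp
  · intro n _
    exact Kn_nonneg d n
  · intro n hn h
    rw [sp_eq, mem_Ico] at hn
    exact Kn_eq hd hn.1 h
  · intro x _ n _
    exact DirichletCharacter.norm_le_one _ _
  · intro k
    rw [hg, hg]
    simp only [neg_eq_zero]
    push_cast
    rw [neg_sq]
  · -- equal characters
    intro x hx k hk l hl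
    have hτ := htau x hx x hx k hk l hl
    have e1 : ∀ n ∈ sp (d + 1), (Kn d n : ℂ) * (ch k (Real.log n) * conj (ch l (Real.log n))) =
        (Kn d n : ℂ) * (1 * ch (k - l) (Real.log n)) := by
      intro n _
      rw [ch_conj, one_mul]
    rw [sum_congr rfl e1, kern_eq d (fun _ => 1) (k - l) hd]
    refine (norm_sum_le _ _).trans ?_
    rw [hg]
    by_cases h0 : k - l = 0
    · rw [if_pos h0]
      calc _ ≤ ∑ j ∈ range 3, (2 : ℝ) := sum_le_sum fun j _ => triv _ (fun _ => 1) (fun n => by simp) _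
        _ = 6 := by rw [sum_const, card_range]; norm_num
    · rw [if_neg h0]
      calc _ ≤ ∑ j ∈ range 3, C₂ * (1 + (d : ℝ)) * (1 / ((k - l : ℤ) : ℝ) ^ 2 + E) := by
            refine sum_le_sum fun j hj => ?_
            rw [mem_range] at hj
            rw [← PF_eq1]
            refine (hsame d (d - 1 + j) (k - l) h0 hd (by omega) (by omega) hτ).trans ?_
            gcongr
        _ = 3 * C₂ * (1 + (d : ℝ)) * (1 / ((k - l : ℤ) : ℝ) ^ 2 + E) := by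
            rw [sum_const, card_range, nsmul_eq_mul]
            push_cast
            ring
  · -- row sums
    intro x hx k hk
    have e1 : ∀ l ∈ S x.1 x.2, g (k - l) ≤ (if k - l = 0 then 6 else 0) + 3 * C₂ * (1 + (d : ℝ)) *
        ((if k - l = 0 then 0 else 1 / (((k - l : ℤ)) : ℝ) ^ 2) + E) := by
      intro l _
      rw [hg]
      by_cases h0 : k - l = 0
      · rw [if_pos h0, if_pos h0, if_pos h0]
        have : 0 ≤ 3 * C₂ * (1 + (d : ℝ)) * (0 + E) := by positivity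
        linarith
      · rw [if_neg h0, if_neg h0, if_neg h0, zero_add]
    refine (sum_le_sum e1).trans ?_
    rw [sum_add_distrib, ← mul_sum, sum_add_distrib]
    have e2 : ∑ l ∈ S x.1 x.2, (if k - l = 0 then (6 : ℝ) else 0) ≤ 6 := by
      have e3 : ∀ l ∈ S x.1 x.2, (if k - l = 0 then (6 : ℝ) else 0) = if k = l then 6 else 0 := by
        intro l _
        simp only [sub_eq_zero]
      rw [sum_congr rfl e3, sum_ite_eq]
      split_ifs <;> norm_num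
    have e4 : ∑ l ∈ S x.1 x.2, (if k - l = 0 then 0 else 1 / (((k - l : ℤ)) : ℝ) ^ 2) ≤ 4 := by
      have e5 := sum_sq_int ((S x.1 x.2).image (fun l => k - l))
      rw [sum_image (fun a _ b _ hab => by simpa using hab)] at e5
      exact e5
    have e6 : ∑ l ∈ S x.1 x.2, E ≤ R * E := by
      rw [sum_const, nsmul_eq_mul]
      refine mul_le_mul_of_nonneg_right ?_ hE0.le
      rw [hR]
      exact single_le_sum (f := fun x : Σ f : ℕ, DirichletCharacter ℂ f => ((S x.1 x.2).card : ℝ))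
        (fun x _ => by positivity) hx
    gcongr
  · positivity
  · positivity
  · -- different characters
    intro x hx y hy hxy k hk l hl
    obtain ⟨hx1, hx2, hx3⟩ := hmemA x hx
    obtain ⟨hy1, hy2, hy3⟩ := hmemA y hy
    have hτ := htau x hx y hy k hk l hl
    obtain ⟨ψ, hψ, hψe⟩ := char_pair (by omega) (by omega) x.2 y.2 hx3 hy3
      (by intro h; exact hxy h)
    haveI hne : NeZero (x.1 * y.1) := ⟨mul_ne_zero (by omega) (by omega)⟩
    have e1 : ∀ n ∈ sp (d + 1), (Kn d n : ℂ) * (x.2 (n : ZMod x.1) * conj (y.2 (n : ZMod y.1)) *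
        (ch k (Real.log n) * conj (ch l (Real.log n)))) =
        (Kn d n : ℂ) * (ψ (n : ZMod (x.1 * y.1)) * ch (k - l) (Real.log n)) := by
      intro n _
      rw [ch_conj, hψe]
    rw [sum_congr rfl e1, kern_eq d (fun n => ψ (n : ZMod (x.1 * y.1))) (k - l) hd]
    refine (norm_sum_le _ _).trans ?_
    have hq : ((x.1 * y.1 : ℕ) : ℝ) ≤ (F : ℝ) ^ 2 := by
      rw [sq]
      push_cast
      have h1 : (x.1 : ℝ) ≤ F := by exact_mod_cast hx2
      have h2 : (y.1 : ℝ) ≤ F := by exact_mod_cast hy2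
      gcongr
    calc _ ≤ ∑ j ∈ range 3, C₁ * (F : ℝ) ^ 2 * (1 + (d : ℝ)) ^ 2 * E := by
          refine sum_le_sum fun j hj => ?_
          rw [mem_range] at hj
          have e2 := hdiff (x.1 * y.1) hne ψ d (d - 1 + j) (k - l) hψ hd (by omega) (by omega) hτ
          unfold PX at e2
          refine e2.trans ?_
          gcongr
      _ = 3 * C₁ * (F : ℝ) ^ 2 * (1 + (d : ℝ)) ^ 2 * E := by
          rw [sum_const, card_range, nsmul_eq_mul]
          push_cast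
          ring
  · -- the trivial bound
    have e1 := (Pool.Agent.Q298.KS.tri z t d 0).2.2.1
    rw [sum_big (d := d + 1) (d' := d) (by omega)]
    · exact e1
    · intro n hn
      unfold cf
      rw [hn]
      simp

end Pool.Agent.L7h23.BP
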