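import Pool.Agent.L7h18.BP.Stm
import Pool.Agent.L7h23.BW.Psv

/-!
Project BP (helper18), part PV2: Parseval's identity for windows minus a trigonometric polynomial.
-/

set_option autoImplicit false

namespace Pool.Agent.L7h23.BP

open Finset MeasureTheory
open Pool.Agent.H376R2.MR (ch DP)
open Pool.Agent.L7h88.BW (gk)
open Pool.Agent.L7h18.BP (gz S_PV2)
open Pool.Agent.L7h23.BW (int_cut ckk int_exp norm_ckk)

lemma gz_eq (δ : ℝ) (k : ℤ) : gz δ k = (1 / (2 * Real.pi) : ℝ) • ckk δ k := by
  unfold gz ckk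
  rw [Complex.real_smul]
  push_cast
  rw [div_eq_mul_one_div, mul_comm]

lemma norm_gz {δ : ℝ} (hδ : 0 < δ) (k : ℤ) : ‖gz δ k‖ = gk δ k := by
  have hpi := Real.pi_pos
  rw [gz_eq, norm_smul, ← norm_ckk hδ, Real.norm_of_nonneg (by positivity)]
  ring

/-- orthogonality of exponentials on an interval of length `2π` -/
lemma int_exp2 (v0 : ℝ) (j k : ℤ) :
    ∫ u in v0..(v0 + 2 * Real.pi), Complex.exp (-(k * u : ℝ) * Complex.I) *
      Complex.exp (((j : ℝ) * u : ℝ) * Complex.I) = if j = k then (2 * Real.pi : ℂ) else 0 := by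
  have hpi := Real.pi_pos
  have e1 : ∀ u : ℝ, Complex.exp (-(k * u : ℝ) * Complex.I) *
      Complex.exp (((j : ℝ) * u : ℝ) * Complex.I) = Complex.exp ((((j - k : ℤ) : ℂ) * Complex.I) * u) := by
    intro u
    rw [← Complex.exp_add]
    congr 1
    push_cast
    ring
  simp_rw [e1]
  by_cases h : j = k
  · subst h
    rw [if_pos rfl]
    simp
  · rw [if_neg h]
    have hjk : ((j - k : ℤ) : ℂ) ≠ 0 := by
      exact_mod_cast sub_ne_zero.2 h
    have hc : (((j - k : ℤ) : ℂ) * Complex.I) ≠ 0 := mul_ne_zero hjk Complex.I_ne_zero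
    rw [integral_exp_mul_complex hc]
    have e2 : Complex.exp ((((j - k : ℤ) : ℂ) * Complex.I) * ((v0 + 2 * Real.pi : ℝ) : ℂ)) =
        Complex.exp ((((j - k : ℤ) : ℂ) * Complex.I) * (v0 : ℂ)) := by
      have e3 : (((j - k : ℤ) : ℂ) * Complex.I) * ((v0 + 2 * Real.pi : ℝ) : ℂ) =
          (((j - k : ℤ) : ℂ) * Complex.I) * (v0 : ℂ) + ((j - k : ℤ) : ℂ) * (2 * Real.pi * Complex.I) := by
        push_cast
        ring
      rw [e3, Complex.exp_add, Complex.exp_int_mul_two_pi_mul_I, mul_one]
    rw [e2, sub_self, zero_div]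

open Classical in
theorem s_PV2 : S_PV2 := by
  intro s b v0 δ S e hδ hδ1 hs
  have hpi := Real.pi_pos
  have hab : v0 < v0 + 2 * Real.pi := by linarith
  set f : ℝ → ℂ := fun u => ∑ n ∈ s.filter (fun n : ℕ => u < Real.log n ∧ Real.log n ≤ u + δ), b n -
    ∑ k ∈ S, gz δ k * e k * Complex.exp (((k : ℝ) * u : ℝ) * Complex.I) with hf
  have hf' : ∀ u, f u = (∑ n ∈ s, if u < Real.log n ∧ Real.log n ≤ u + δ then b n else 0) -
      ∑ k ∈ S, gz δ k * e k * Complex.exp (((k : ℝ) * u : ℝ) * Complex.I) := by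
    intro u
    rw [hf]
    simp only
    rw [sum_filter]
  have hset : ∀ n : ℕ, MeasurableSet {u : ℝ | u < Real.log n ∧ Real.log n ≤ u + δ} := by
    intro n
    have e2 : {u : ℝ | u < Real.log n ∧ Real.log n ≤ u + δ} = Set.Ico (Real.log n - δ) (Real.log n) := by
      ext u
      simp only [Set.mem_setOf_eq, Set.mem_Ico]
      constructor
      · rintro ⟨h1, h2⟩; exact ⟨by linarith, h1⟩
      · rintro ⟨h1, h2⟩; exact ⟨h2, by linarith⟩
    rw [e2]
    exact measurableSet_Ico
  have hpoly : Continuous (fun u : ℝ => ∑ k ∈ S, gz δ k * e k * Complex.exp (((k : ℝ) * u : ℝ) * Complex.I)) := by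
    fun_prop
  have hmeas : Measurable f := by
    have e0 : f = fun u => (∑ n ∈ s, if u < Real.log n ∧ Real.log n ≤ u + δ then b n else 0) -
      ∑ k ∈ S, gz δ k * e k * Complex.exp (((k : ℝ) * u : ℝ) * Complex.I) := by
      funext u; exact hf' u
    rw [e0]
    refine Measurable.sub (Finset.measurable_sum _ fun n _ => ?_) hpoly.measurable
    exact Measurable.ite (hset n) measurable_const measurable_const
  have hexp1 : ∀ (k : ℤ) (u : ℝ), ‖Complex.exp (((k : ℝ) * u : ℝ) * Complex.I)‖ = 1 := by
    intro k u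
    exact Complex.norm_exp_ofReal_mul_I _
  have hbd : ∀ u, ‖f u‖ ≤ ∑ n ∈ s, ‖b n‖ + ∑ k ∈ S, ‖gz δ k * e k‖ := by
    intro u
    rw [hf']
    refine (norm_sub_le _ _).trans (add_le_add ?_ ?_)
    · refine (norm_sum_le _ _).trans (sum_le_sum fun n _ => ?_)
      split_ifs
      · exact le_refl _
      · rw [norm_zero]; exact norm_nonneg _
    · refine (norm_sum_le _ _).trans (sum_le_sum fun k _ => ?_)
      rw [norm_mul _ (Complex.exp _), hexp1, mul_one]
  have hL2 : MemLp f 2 (volume.restrict (Set.Ioc v0 (v0 + 2 * Real.pi))) :=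
    MemLp.of_bound hmeas.aestronglyMeasurable _ (Filter.Eventually.of_forall hbd)
  have H := hasSum_sq_fourierCoeffOn hab hL2
  have eT : v0 + 2 * Real.pi - v0 = 2 * Real.pi := by ring
  have hco : ∀ k : ℤ, ‖fourierCoeffOn hab f k‖ ^ 2 =
      gk δ k ^ 2 * ‖DP s b k - (if k ∈ S then e k else 0)‖ ^ 2 := by
    intro k
    have e1 : fourierCoeffOn hab f k = gz δ k * (DP s b k - (if k ∈ S then e k else 0)) := by
      rw [fourierCoeffOn_eq_integral, eT]
      have e2 : ∀ u : ℝ, (fourier (-k) (u : AddCircle (2 * Real.pi))) • f u =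
          ∑ n ∈ s, Complex.exp (-(k * u : ℝ) * Complex.I) *
            (if u < Real.log n ∧ Real.log n ≤ u + δ then b n else 0) -
          ∑ j ∈ S, gz δ j * e j * (Complex.exp (-(k * u : ℝ) * Complex.I) *
            Complex.exp (((j : ℝ) * u : ℝ) * Complex.I)) := by
        intro u
        rw [hf', smul_eq_mul, fourier_coe_apply, mul_sub, mul_sum, mul_sum]
        have e3 : Complex.exp (2 * Real.pi * Complex.I * ((-k : ℤ) : ℂ) * (u : ℂ) / ((2 * Real.pi : ℝ) : ℂ)) =
            Complex.exp (-(k * u : ℝ) * Complex.I) := by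
          congr 1
          have hpic : (Real.pi : ℂ) ≠ 0 := by exact_mod_cast hpi.ne'
          push_cast
          field_simp
        rw [e3]
        congr 1
        refine sum_congr rfl fun j _ => ?_
        ring
      simp_rw [e2]
      have hI1 : ∀ n ∈ s, IntervalIntegrable (fun u : ℝ => Complex.exp (-(k * u : ℝ) * Complex.I) *
            (if u < Real.log n ∧ Real.log n ≤ u + δ then b n else 0)) volume v0 (v0 + 2 * Real.pi) := by
        intro n _
        have hc : Continuous (fun u : ℝ => Complex.exp (-(k * u : ℝ) * Complex.I)) := by fun_prop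
        rw [intervalIntegrable_iff_integrableOn_Ioc_of_le hab.le]
        refine Measure.integrableOn_of_bounded (M := ‖b n‖) measure_Ioc_lt_top.ne ?_ ?_
        · exact (hc.measurable.mul (Measurable.ite (hset n) measurable_const
            measurable_const)).aestronglyMeasurable
        · refine Filter.Eventually.of_forall fun u => ?_
          have e3 : ‖Complex.exp (-(k * u : ℝ) * Complex.I)‖ = 1 := by
            rw [← Complex.ofReal_neg]
            exact Complex.norm_exp_ofReal_mul_I _
          rw [norm_mul, e3, one_mul]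
          split_ifs
          · exact le_refl _
          · rw [norm_zero]; exact norm_nonneg _
      have hI2 : ∀ j ∈ S, IntervalIntegrable (fun u : ℝ => gz δ j * e j *
          (Complex.exp (-(k * u : ℝ) * Complex.I) * Complex.exp (((j : ℝ) * u : ℝ) * Complex.I)))
          volume v0 (v0 + 2 * Real.pi) := by
        intro j _
        refine Continuous.intervalIntegrable ?_ _ _
        fun_prop
      have hI1s := IntervalIntegrable.sum s hI1
      have hI2s := IntervalIntegrable.sum S hI2
      have hsub := intervalIntegral.integral_sub hI1s hI2s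
      simp only [Finset.sum_apply] at hsub
      rw [hsub, intervalIntegral.integral_finset_sum hI1, intervalIntegral.integral_finset_sum hI2]
      have e4 : ∑ n ∈ s, ∫ u in v0..(v0 + 2 * Real.pi), Complex.exp (-(k * u : ℝ) * Complex.I) *
            (if u < Real.log n ∧ Real.log n ≤ u + δ then b n else 0) = DP s b k * ckk δ k := by
        unfold DP
        rw [sum_mul]
        refine sum_congr rfl fun n hn => ?_
        obtain ⟨h0, h1, h2⟩ := hs n hn
        rw [int_cut _ _ h1 h2 hδ, int_exp]
        ring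
      have e5 : ∑ j ∈ S, ∫ u in v0..(v0 + 2 * Real.pi), gz δ j * e j *
          (Complex.exp (-(k * u : ℝ) * Complex.I) * Complex.exp (((j : ℝ) * u : ℝ) * Complex.I)) =
          (if k ∈ S then gz δ k * e k * (2 * Real.pi) else 0) := by
        have e6 : ∀ j ∈ S, ∫ u in v0..(v0 + 2 * Real.pi), gz δ j * e j *
          (Complex.exp (-(k * u : ℝ) * Complex.I) * Complex.exp (((j : ℝ) * u : ℝ) * Complex.I)) =
          if j = k then gz δ j * e j * (2 * Real.pi) else 0 := by
          intro j _
          rw [intervalIntegral.integral_const_mul, int_exp2]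
          split_ifs <;> ring
        rw [sum_congr rfl e6, sum_ite_eq']
      rw [e4, e5, gz_eq]
      rw [Complex.real_smul, Complex.real_smul]
      have hpic : (Real.pi : ℂ) ≠ 0 := by exact_mod_cast hpi.ne'
      split_ifs
      · push_cast
        field_simp
      · push_cast
        rw [sub_zero, sub_zero]
        ring
    rw [e1, norm_mul, norm_gz hδ, mul_pow]
  simp_rw [hco] at H
  have e5 : (v0 + 2 * Real.pi - v0)⁻¹ • ∫ x in v0..(v0 + 2 * Real.pi), ‖f x‖ ^ 2 =
      1 / (2 * Real.pi) * ∫ x in v0..(v0 + 2 * Real.pi), ‖f x‖ ^ 2 := by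
    rw [smul_eq_mul, eT, one_div]
  rw [e5] at H
  exact H

end Pool.Agent.L7h23.BP
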