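import Mathlib

/-!
Project BP (helper18), part HMP: the inequality of Halász and Montgomery for pairs (character, frequency), and pairs of
primitive characters.
-/

set_option autoImplicit false

namespace Pool.Agent.L7h23.BP

open Finset ComplexConjugate

/-- a hermitian form with bounded row sums -/
lemma schur {ι : Type*} (S : Finset ι) (c : ι → ℂ) (M : ι → ι → ℂ) (g : ι → ι → ℝ) (B : ℝ)
    (hgs : ∀ k ∈ S, ∀ l ∈ S, g k l = g l k) (hg : ∀ k ∈ S, ∀ l ∈ S, ‖M k l‖ ≤ g k l)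
    (hB : ∀ k ∈ S, ∑ l ∈ S, g k l ≤ B) :
    ‖∑ k ∈ S, ∑ l ∈ S, c k * conj (c l) * M k l‖ ≤ B * ∑ k ∈ S, ‖c k‖ ^ 2 := by
  have h1 : ‖∑ k ∈ S, ∑ l ∈ S, c k * conj (c l) * M k l‖ ≤
      ∑ k ∈ S, ∑ l ∈ S, (‖c k‖ ^ 2 / 2 * g k l + ‖c l‖ ^ 2 / 2 * g k l) := by
    refine (norm_sum_le _ _).trans (sum_le_sum fun k hk => (norm_sum_le _ _).trans
      (sum_le_sum fun l hl => ?_))
    rw [norm_mul, norm_mul, RCLike.norm_conj]
    have h0 : 0 ≤ g k l := (norm_nonneg _).trans (hg k hk l hl)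
    have h2 : ‖c k‖ * ‖c l‖ * ‖M k l‖ ≤ ‖c k‖ * ‖c l‖ * g k l :=
      mul_le_mul_of_nonneg_left (hg k hk l hl) (by positivity)
    have h3 : ‖c k‖ * ‖c l‖ ≤ ‖c k‖ ^ 2 / 2 + ‖c l‖ ^ 2 / 2 := by
      nlinarith [sq_nonneg (‖c k‖ - ‖c l‖)]
    calc ‖c k‖ * ‖c l‖ * ‖M k l‖ ≤ ‖c k‖ * ‖c l‖ * g k l := h2
      _ ≤ (‖c k‖ ^ 2 / 2 + ‖c l‖ ^ 2 / 2) * g k l := mul_le_mul_of_nonneg_right h3 h0
      _ = _ := by ring
  refine h1.trans ?_
  simp_rw [sum_add_distrib]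
  have h2 : ∑ k ∈ S, ∑ l ∈ S, ‖c l‖ ^ 2 / 2 * g k l = ∑ k ∈ S, ∑ l ∈ S, ‖c k‖ ^ 2 / 2 * g k l := by
    rw [sum_comm]
    refine sum_congr rfl fun k hk => sum_congr rfl fun l hl => ?_
    rw [hgs k hk l hl]
  rw [h2, ← two_mul, mul_sum, mul_sum]
  refine sum_le_sum fun k hk => ?_
  rw [← mul_sum]
  have h3 := mul_le_mul_of_nonneg_left (hB k hk) (by positivity : 0 ≤ ‖c k‖ ^ 2)
  linarith

/-- the diagonal blocks -/
lemma hm_diag (S : Finset ℤ) (N : Finset ℕ) (K : ℕ → ℝ) (e : ℤ → ℕ → ℂ) (g : ℤ → ℝ) (B : ℝ) (c : ℤ → ℂ)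
    (D : ℕ → ℂ) (hD : ∀ n, D n = ∑ k ∈ S, c k * e k n)
    (hK : ∀ n ∈ N, 0 ≤ K n) (hge : ∀ k, g (-k) = g k)
    (hg : ∀ k ∈ S, ∀ l ∈ S, ‖∑ n ∈ N, (K n : ℂ) * (e k n * conj (e l n))‖ ≤ g (k - l))
    (hB : ∀ k ∈ S, ∑ l ∈ S, g (k - l) ≤ B) :
    ∑ n ∈ N, K n * ‖D n‖ ^ 2 ≤ B * ∑ k ∈ S, ‖c k‖ ^ 2 := by
  have e1 : ((∑ n ∈ N, K n * ‖D n‖ ^ 2 : ℝ) : ℂ) =
      ∑ k ∈ S, ∑ l ∈ S, c k * conj (c l) * ∑ n ∈ N, (K n : ℂ) * (e k n * conj (e l n)) := by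
    push_cast
    have e2 : ∀ n ∈ N, (K n : ℂ) * (‖D n‖ : ℂ) ^ 2 =
        ∑ k ∈ S, ∑ l ∈ S, c k * conj (c l) * ((K n : ℂ) * (e k n * conj (e l n))) := by
      intro n _
      rw [← Complex.mul_conj', hD, map_sum, sum_mul_sum, mul_sum]
      refine sum_congr rfl fun k _ => ?_
      rw [mul_sum]
      refine sum_congr rfl fun l _ => ?_
      rw [map_mul]
      ring
    rw [sum_congr rfl e2, sum_comm]
    refine sum_congr rfl fun k _ => ?_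
    rw [sum_comm]
    refine sum_congr rfl fun l _ => ?_
    rw [mul_sum]
  have e3 : 0 ≤ ∑ n ∈ N, K n * ‖D n‖ ^ 2 := sum_nonneg fun n hn => mul_nonneg (hK n hn) (by positivity)
  have e4 : ∑ n ∈ N, K n * ‖D n‖ ^ 2 = ‖((∑ n ∈ N, K n * ‖D n‖ ^ 2 : ℝ) : ℂ)‖ := by
    rw [Complex.norm_real, Real.norm_of_nonneg e3]
  rw [e4, e1]
  refine schur S c _ (fun k l => g (k - l)) B ?_ hg hB
  intro k _ l _
  rw [← hge (k - l), neg_sub]

/-- one block -/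
lemma hm_block (S S' : Finset ℤ) (N : Finset ℕ) (K : ℕ → ℝ) (e : ℤ → ℕ → ℂ) (h : ℝ) (c c' : ℤ → ℂ) (X X' : ℕ → ℂ)
    (D D' : ℕ → ℂ) (hD : ∀ n, D n = ∑ k ∈ S, c k * e k n) (hD' : ∀ n, D' n = ∑ k ∈ S', c' k * e k n)
    (hh : ∀ k ∈ S, ∀ l ∈ S',
      ‖∑ n ∈ N, (K n : ℂ) * ((X n * conj (X' n)) * (e k n * conj (e l n)))‖ ≤ h) :
    (∑ n ∈ N, (K n : ℂ) * ((X n * D n) * conj (X' n * D' n))).re ≤
      h * ∑ k ∈ S, ∑ l ∈ S', ‖c k‖ * ‖c' l‖ := by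
  have e6 : ∑ n ∈ N, (K n : ℂ) * ((X n * D n) * conj (X' n * D' n)) = ∑ k ∈ S, ∑ l ∈ S', c k * conj (c' l) *
      ∑ n ∈ N, (K n : ℂ) * ((X n * conj (X' n)) * (e k n * conj (e l n))) := by
    have e7 : ∀ n ∈ N, (K n : ℂ) * ((X n * D n) * conj (X' n * D' n)) =
        ∑ k ∈ S, ∑ l ∈ S', c k * conj (c' l) *
          ((K n : ℂ) * ((X n * conj (X' n)) * (e k n * conj (e l n)))) := by
      intro n _
      rw [hD, hD', map_mul, map_sum]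
      have e8 : (X n * ∑ k ∈ S, c k * e k n) * (conj (X' n) * ∑ l ∈ S', conj (c' l * e l n)) =
          (X n * conj (X' n)) * ((∑ k ∈ S, c k * e k n) * ∑ l ∈ S', conj (c' l * e l n)) := by
        ring
      rw [e8, sum_mul_sum, mul_sum, mul_sum]
      refine sum_congr rfl fun k _ => ?_
      rw [mul_sum, mul_sum]
      refine sum_congr rfl fun l _ => ?_
      rw [map_mul]
      ring
    rw [sum_congr rfl e7, sum_comm]
    refine sum_congr rfl fun k _ => ?_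
    rw [sum_comm]
    refine sum_congr rfl fun l _ => ?_
    rw [mul_sum]
  refine (Complex.re_le_norm _).trans ?_
  rw [e6, mul_sum]
  refine (norm_sum_le _ _).trans (sum_le_sum fun k hk => ?_)
  rw [mul_sum]
  refine (norm_sum_le _ _).trans (sum_le_sum fun l hl => ?_)
  rw [norm_mul, norm_mul, RCLike.norm_conj, mul_comm h]
  exact mul_le_mul_of_nonneg_left (hh k hk l hl) (by positivity)

/-- the full form -/
lemma hm_form {α : Type*} [DecidableEq α] (A : Finset α) (S : α → Finset ℤ) (N : Finset ℕ) (K : ℕ → ℝ)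
    (X : α → ℕ → ℂ) (e : ℤ → ℕ → ℂ) (g : ℤ → ℝ) (h B : ℝ) (c : α → ℤ → ℂ)
    (D : α → ℕ → ℂ) (hD : ∀ x n, D x n = ∑ k ∈ S x, c x k * e k n)
    (hK : ∀ n ∈ N, 0 ≤ K n) (hX : ∀ x ∈ A, ∀ n ∈ N, ‖X x n‖ ≤ 1) (hge : ∀ k, g (-k) = g k)
    (hg : ∀ x ∈ A, ∀ k ∈ S x, ∀ l ∈ S x, ‖∑ n ∈ N, (K n : ℂ) * (e k n * conj (e l n))‖ ≤ g (k - l))
    (hB : ∀ x ∈ A, ∀ k ∈ S x, ∑ l ∈ S x, g (k - l) ≤ B)
    (hh0 : 0 ≤ h)
    (hh : ∀ x ∈ A, ∀ y ∈ A, x ≠ y → ∀ k ∈ S x, ∀ l ∈ S y,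
      ‖∑ n ∈ N, (K n : ℂ) * ((X x n * conj (X y n)) * (e k n * conj (e l n)))‖ ≤ h) :
    ∑ n ∈ N, K n * ‖∑ x ∈ A, X x n * D x n‖ ^ 2 ≤
      (B + h * ∑ x ∈ A, ((S x).card : ℝ)) * ∑ x ∈ A, ∑ k ∈ S x, ‖c x k‖ ^ 2 := by
  have s5 : ∑ n ∈ N, K n * ‖∑ x ∈ A, X x n * D x n‖ ^ 2 ≤
      ∑ x ∈ A, ∑ n ∈ N, K n * ‖D x n‖ ^ 2 + h * (∑ x ∈ A, ∑ k ∈ S x, ‖c x k‖) ^ 2 := by
    have e1 : ((∑ n ∈ N, K n * ‖∑ x ∈ A, X x n * D x n‖ ^ 2 : ℝ) : ℂ) = ∑ x ∈ A, ∑ y ∈ A,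
        ∑ n ∈ N, (K n : ℂ) * ((X x n * D x n) * conj (X y n * D y n)) := by
      push_cast
      have e2 : ∀ n ∈ N, (K n : ℂ) * (‖∑ x ∈ A, X x n * D x n‖ : ℂ) ^ 2 =
          ∑ x ∈ A, ∑ y ∈ A, (K n : ℂ) * ((X x n * D x n) * conj (X y n * D y n)) := by
        intro n _
        rw [← Complex.mul_conj', map_sum, sum_mul_sum, mul_sum]
        refine sum_congr rfl fun x _ => ?_
        rw [mul_sum]
      rw [sum_congr rfl e2, sum_comm]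
      refine sum_congr rfl fun x _ => ?_
      rw [sum_comm]
    have e3 : ∑ n ∈ N, K n * ‖∑ x ∈ A, X x n * D x n‖ ^ 2 = ∑ x ∈ A, ∑ y ∈ A,
        (∑ n ∈ N, (K n : ℂ) * ((X x n * D x n) * conj (X y n * D y n))).re := by
      have e4 := congrArg Complex.re e1
      rw [Complex.ofReal_re] at e4
      rw [e4, Complex.re_sum]
      refine sum_congr rfl fun x _ => ?_
      rw [Complex.re_sum]
    have e5 : ∀ x ∈ A, ∀ y ∈ A, (∑ n ∈ N, (K n : ℂ) * ((X x n * D x n) * conj (X y n * D y n))).re ≤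
        (if x = y then ∑ n ∈ N, K n * ‖D x n‖ ^ 2 else 0) +
        h * ∑ k ∈ S x, ∑ l ∈ S y, ‖c x k‖ * ‖c y l‖ := by
      intro x hx y hy
      have h0 : 0 ≤ h * ∑ k ∈ S x, ∑ l ∈ S y, ‖c x k‖ * ‖c y l‖ :=
        mul_nonneg hh0 (sum_nonneg fun k _ => sum_nonneg fun l _ => by positivity)
      by_cases hxy : x = y
      · subst hxy
        rw [if_pos rfl]
        have e6 : (∑ n ∈ N, (K n : ℂ) * ((X x n * D x n) * conj (X x n * D x n))).re ≤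
            ∑ n ∈ N, K n * ‖D x n‖ ^ 2 := by
          rw [Complex.re_sum]
          refine sum_le_sum fun n hn => ?_
          rw [Complex.mul_conj']
          have e7 : ((K n : ℂ) * ((‖X x n * D x n‖ : ℂ) ^ 2)).re = K n * ‖X x n * D x n‖ ^ 2 := by
            rw [← Complex.ofReal_pow, ← Complex.ofReal_mul, Complex.ofReal_re]
          rw [e7]
          refine mul_le_mul_of_nonneg_left ?_ (hK n hn)
          refine pow_le_pow_left₀ (norm_nonneg _) ?_ 2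
          rw [norm_mul]
          calc ‖X x n‖ * ‖D x n‖ ≤ 1 * ‖D x n‖ :=
                mul_le_mul_of_nonneg_right (hX x hx n hn) (norm_nonneg _)
            _ = ‖D x n‖ := one_mul _
        linarith
      · rw [if_neg hxy, zero_add]
        exact hm_block (S x) (S y) N K e h (c x) (c y) (X x) (X y) (D x) (D y) (hD x) (hD y)
          (hh x hx y hy hxy)
    rw [e3]
    have e6 : ∑ x ∈ A, ∑ y ∈ A, (∑ n ∈ N, (K n : ℂ) * ((X x n * D x n) * conj (X y n * D y n))).re ≤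
        ∑ x ∈ A, ∑ y ∈ A, ((if x = y then ∑ n ∈ N, K n * ‖D x n‖ ^ 2 else 0) +
          h * ∑ k ∈ S x, ∑ l ∈ S y, ‖c x k‖ * ‖c y l‖) :=
      sum_le_sum fun x hx => sum_le_sum fun y hy => e5 x hx y hy
    refine e6.trans (le_of_eq ?_)
    simp_rw [sum_add_distrib]
    congr 1
    · refine sum_congr rfl fun x hx => ?_
      rw [sum_ite_eq, if_pos hx]
    · simp_rw [← mul_sum]
      congr 1
      rw [sq, sum_mul_sum]
      refine sum_congr rfl fun x _ => sum_congr rfl fun y _ => ?_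
      rw [sum_mul_sum]
      refine sum_congr rfl fun k _ => ?_
      rw [mul_sum]
  have s6 : (∑ x ∈ A, ∑ k ∈ S x, ‖c x k‖) ^ 2 ≤
      (∑ x ∈ A, ((S x).card : ℝ)) * ∑ x ∈ A, ∑ k ∈ S x, ‖c x k‖ ^ 2 := by
    rw [Finset.sum_sigma', Finset.sum_sigma']
    have e1 := sq_sum_le_card_mul_sum_sq (s := A.sigma S) (f := fun p => ‖c p.1 p.2‖)
    rw [Finset.card_sigma] at e1
    push_cast at e1
    exact e1
  have s4 : ∑ x ∈ A, ∑ n ∈ N, K n * ‖D x n‖ ^ 2 ≤ B * ∑ x ∈ A, ∑ k ∈ S x, ‖c x k‖ ^ 2 := by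
    rw [mul_sum]
    exact sum_le_sum fun x hx => hm_diag (S x) N K e g B (c x) (D x) (hD x) hK hge (hg x hx) (hB x hx)
  have e2 := mul_le_mul_of_nonneg_left s6 hh0
  calc ∑ n ∈ N, K n * ‖∑ x ∈ A, X x n * D x n‖ ^ 2 ≤
      ∑ x ∈ A, ∑ n ∈ N, K n * ‖D x n‖ ^ 2 + h * (∑ x ∈ A, ∑ k ∈ S x, ‖c x k‖) ^ 2 := s5
    _ ≤ B * ∑ x ∈ A, ∑ k ∈ S x, ‖c x k‖ ^ 2 +
        h * ((∑ x ∈ A, ((S x).card : ℝ)) * ∑ x ∈ A, ∑ k ∈ S x, ‖c x k‖ ^ 2) := add_le_add s4 e2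
    _ = _ := by ring

/-- **Halász-Montgomery** for pairs (character, frequency) -/
theorem hm_abs {α : Type*} [DecidableEq α] (A : Finset α) (S : α → Finset ℤ) (N : Finset ℕ) (a K : ℕ → ℝ)
    (X : α → ℕ → ℂ) (e : ℤ → ℕ → ℂ) (g : ℤ → ℝ) (h B G : ℝ)
    (P : α → ℤ → ℂ) (hP : ∀ x k, P x k = ∑ n ∈ N, (a n : ℂ) * X x n * e k n)
    (hK : ∀ n ∈ N, 0 ≤ K n) (haK : ∀ n ∈ N, a n ≠ 0 → (n : ℝ) * K n = 1)
    (hX : ∀ x ∈ A, ∀ n ∈ N, ‖X x n‖ ≤ 1)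
    (hge : ∀ k, g (-k) = g k)
    (hg : ∀ x ∈ A, ∀ k ∈ S x, ∀ l ∈ S x, ‖∑ n ∈ N, (K n : ℂ) * (e k n * conj (e l n))‖ ≤ g (k - l))
    (hB : ∀ x ∈ A, ∀ k ∈ S x, ∑ l ∈ S x, g (k - l) ≤ B) (hB0 : 0 ≤ B)
    (hh0 : 0 ≤ h)
    (hh : ∀ x ∈ A, ∀ y ∈ A, x ≠ y → ∀ k ∈ S x, ∀ l ∈ S y,
      ‖∑ n ∈ N, (K n : ℂ) * ((X x n * conj (X y n)) * (e k n * conj (e l n)))‖ ≤ h)
    (hG : ∑ n ∈ N, (n : ℝ) * a n ^ 2 ≤ G) :
    ∑ x ∈ A, ∑ k ∈ S x, ‖P x k‖ ^ 2 ≤ G * (B + h * ∑ x ∈ A, ((S x).card : ℝ)) := by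
  obtain ⟨c, hc⟩ : ∃ c : α → ℤ → ℂ, ∀ x k, c x k = conj (P x k) := ⟨_, fun _ _ => rfl⟩
  obtain ⟨D, hD⟩ : ∃ D : α → ℕ → ℂ, ∀ x n, D x n = ∑ k ∈ S x, c x k * e k n := ⟨_, fun _ _ => rfl⟩
  obtain ⟨E, hE⟩ : ∃ E : ℕ → ℂ, ∀ n, E n = ∑ x ∈ A, X x n * D x n := ⟨_, fun _ => rfl⟩
  obtain ⟨Q, hQ⟩ : ∃ Q : ℝ, Q = ∑ x ∈ A, ∑ k ∈ S x, ‖P x k‖ ^ 2 := ⟨_, rfl⟩
  obtain ⟨R, hR⟩ : ∃ R : ℝ, R = ∑ x ∈ A, ((S x).card : ℝ) := ⟨_, rfl⟩
  have hQ0 : 0 ≤ Q := by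
    rw [hQ]; exact sum_nonneg fun x _ => sum_nonneg fun k _ => by positivity
  have hR0 : 0 ≤ R := by
    rw [hR]; exact sum_nonneg fun x _ => by positivity
  have hcn : ∀ x k, ‖c x k‖ = ‖P x k‖ := fun x k => by rw [hc]; exact RCLike.norm_conj _
  have hQc : Q = ∑ x ∈ A, ∑ k ∈ S x, ‖c x k‖ ^ 2 := by
    rw [hQ]
    refine sum_congr rfl fun x _ => sum_congr rfl fun k _ => ?_
    rw [hcn]
  have s1 : (Q : ℂ) = ∑ n ∈ N, (a n : ℂ) * E n := by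
    have e1 : (Q : ℂ) = ∑ x ∈ A, ∑ k ∈ S x, c x k * P x k := by
      rw [hQ]
      push_cast
      refine sum_congr rfl fun x _ => sum_congr rfl fun k _ => ?_
      rw [hc, ← Complex.conj_mul']
    rw [e1]
    have e2 : ∀ x ∈ A, ∑ k ∈ S x, c x k * P x k = ∑ n ∈ N, (a n : ℂ) * (X x n * D x n) := by
      intro x _
      simp_rw [hP, hD, mul_sum]
      rw [sum_comm]
      refine sum_congr rfl fun n _ => sum_congr rfl fun k _ => ?_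
      ring
    rw [sum_congr rfl e2, sum_comm]
    refine sum_congr rfl fun n _ => ?_
    rw [hE, mul_sum]
  have s2 : Q ≤ ∑ n ∈ N, (Real.sqrt n * |a n|) * (Real.sqrt (K n) * ‖E n‖) := by
    have e1 : Q = ‖(Q : ℂ)‖ := by rw [Complex.norm_real, Real.norm_of_nonneg hQ0]
    rw [e1, s1]
    refine (norm_sum_le _ _).trans (sum_le_sum fun n hn => ?_)
    rw [norm_mul, Complex.norm_real, Real.norm_eq_abs]
    by_cases h0 : a n = 0
    · rw [h0, abs_zero, zero_mul, mul_zero, zero_mul]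
    · have e2 : Real.sqrt n * Real.sqrt (K n) = 1 := by
        rw [← Real.sqrt_mul (Nat.cast_nonneg n), haK n hn h0, Real.sqrt_one]
      have e3 : (Real.sqrt n * |a n|) * (Real.sqrt (K n) * ‖E n‖) =
          (Real.sqrt n * Real.sqrt (K n)) * (|a n| * ‖E n‖) := by ring
      rw [e3, e2, one_mul]
  have s3 : Q ^ 2 ≤ (∑ n ∈ N, (n : ℝ) * a n ^ 2) * ∑ n ∈ N, K n * ‖E n‖ ^ 2 := by
    have e1 := sum_mul_sq_le_sq_mul_sq N (fun n => Real.sqrt n * |a n|) (fun n => Real.sqrt (K n) * ‖E n‖)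
    have e2 : Q ^ 2 ≤ (∑ n ∈ N, (Real.sqrt n * |a n|) * (Real.sqrt (K n) * ‖E n‖)) ^ 2 :=
      pow_le_pow_left₀ hQ0 s2 2
    refine e2.trans (e1.trans (le_of_eq ?_))
    congr 1
    · refine sum_congr rfl fun n _ => ?_
      rw [mul_pow, Real.sq_sqrt (Nat.cast_nonneg n), sq_abs]
    · refine sum_congr rfl fun n hn => ?_
      rw [mul_pow, Real.sq_sqrt (hK n hn)]
  have s7 : ∑ n ∈ N, K n * ‖E n‖ ^ 2 ≤ (B + h * R) * Q := by
    have e1 := hm_form A S N K X e g h B c D hD hK hX hge hg hB hh0 hh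
    rw [← hR, ← hQc] at e1
    refine (le_of_eq (sum_congr rfl fun n _ => ?_)).trans e1
    rw [hE]
  have hG0 : 0 ≤ ∑ n ∈ N, (n : ℝ) * a n ^ 2 := sum_nonneg fun n _ => by positivity
  have hBR : 0 ≤ B + h * R := by positivity
  have s8 : Q ^ 2 ≤ (G * (B + h * R)) * Q := by
    calc Q ^ 2 ≤ (∑ n ∈ N, (n : ℝ) * a n ^ 2) * ∑ n ∈ N, K n * ‖E n‖ ^ 2 := s3
      _ ≤ (∑ n ∈ N, (n : ℝ) * a n ^ 2) * ((B + h * R) * Q) := mul_le_mul_of_nonneg_left s7 hG0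
      _ ≤ G * ((B + h * R) * Q) := mul_le_mul_of_nonneg_right hG (by positivity)
      _ = (G * (B + h * R)) * Q := by ring
  rw [← hQ, ← hR]
  rcases hQ0.eq_or_lt with h0 | h0
  · rw [← h0]
    exact mul_nonneg (hG0.trans hG) hBR
  · rw [sq] at s8
    exact le_of_mul_le_mul_right s8 h0

/-- two different primitive characters -/
lemma char_pair {f f' : ℕ} (hf : f ≠ 0) (hf' : f' ≠ 0) (χ : DirichletCharacter ℂ f)
    (χ' : DirichletCharacter ℂ f') (h : χ.IsPrimitive) (h' : χ'.IsPrimitive)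
    (hne : (⟨f, χ⟩ : Σ f : ℕ, DirichletCharacter ℂ f) ≠ ⟨f', χ'⟩) :
    ∃ ψ : DirichletCharacter ℂ (f * f'), ψ ≠ 1 ∧ ∀ n : ℕ, χ (n : ZMod f) * conj (χ' (n : ZMod f')) =
      ψ (n : ZMod (f * f')) := by
  haveI : NeZero f := ⟨hf⟩
  haveI : NeZero f' := ⟨hf'⟩
  haveI : NeZero (f * f') := ⟨mul_ne_zero hf hf'⟩
  refine ⟨DirichletCharacter.changeLevel (dvd_mul_right f f') χ *
    (DirichletCharacter.changeLevel (dvd_mul_left f' f) χ')⁻¹, ?_, ?_⟩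
  · intro h1
    have h2 : DirichletCharacter.changeLevel (dvd_mul_right f f') χ =
        DirichletCharacter.changeLevel (dvd_mul_left f' f) χ' := mul_inv_eq_one.1 h1
    have h3 := DirichletCharacter.conductor_changeLevel χ (dvd_mul_right f f')
    have h4 := DirichletCharacter.conductor_changeLevel χ' (dvd_mul_left f' f)
    rw [h2, h4] at h3
    have h5 : χ.conductor = f := h
    have h6 : χ'.conductor = f' := h'
    have h7 : f' = f := by rw [← h5, ← h6, h3]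
    subst h7
    have h8 := DirichletCharacter.changeLevel_injective (dvd_mul_right f' f') h2
    subst h8
    exact hne rfl
  · intro n
    by_cases hn : IsCoprime (n : ℤ) ((f * f' : ℕ) : ℤ)
    · have e1 := DirichletCharacter.changeLevel_eq_cast_of_dvd' χ (dvd_mul_right f f') hn
      have e2 := DirichletCharacter.changeLevel_eq_cast_of_dvd' χ' (dvd_mul_left f' f) hn
      rw [MulChar.mul_apply]
      have e3 : ((n : ℤ) : ZMod (f * f')) = (n : ZMod (f * f')) := by push_cast; rfl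
      have e4 : ((n : ℤ) : ZMod f) = (n : ZMod f) := by push_cast; rfl
      have e5 : ((n : ℤ) : ZMod f') = (n : ZMod f') := by push_cast; rfl
      rw [e3, e4] at e1
      rw [e3, e5] at e2
      rw [e1]
      congr 1
      rw [← e2]
      exact MulChar.star_apply' _ _
    · have e0 : (DirichletCharacter.changeLevel (dvd_mul_right f f') χ *
          (DirichletCharacter.changeLevel (dvd_mul_left f' f) χ')⁻¹) (n : ZMod (f * f')) = 0 := by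
        have e1 := (DirichletCharacter.apply_eq_zero_iff (DirichletCharacter.changeLevel (dvd_mul_right f f') χ *
          (DirichletCharacter.changeLevel (dvd_mul_left f' f) χ')⁻¹) (n : ℤ)).2 hn
        have e3 : ((n : ℤ) : ZMod (f * f')) = (n : ZMod (f * f')) := by push_cast; rfl
        rw [e3] at e1
        exact e1
      rw [e0]
      have h3 : ¬ (IsCoprime (n : ℤ) (f : ℤ) ∧ IsCoprime (n : ℤ) (f' : ℤ)) := by
        rintro ⟨a, b⟩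
        apply hn
        push_cast
        exact a.mul_right b
      rw [not_and_or] at h3
      rcases h3 with h3 | h3
      · have := (DirichletCharacter.apply_eq_zero_iff χ (n : ℤ)).2 h3
        have e : ((n : ℤ) : ZMod f) = (n : ZMod f) := by push_cast; rfl
        rw [e] at this
        rw [this, zero_mul]
      · have := (DirichletCharacter.apply_eq_zero_iff χ' (n : ℤ)).2 h3
        have e : ((n : ℤ) : ZMod f') = (n : ZMod f') := by push_cast; rfl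
        rw [e] at this
        rw [this, map_zero, mul_zero]

end Pool.Agent.L7h23.BP
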